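import Mathlib
import Pool.Prelude.Def_F_c31e40fa
import Pool.Agent.W746.LD.Final
import Pool.Agent.Helper134_Eff.Lower

set_option autoImplicit false

namespace Pool.Agent.Results.MP_af9036_an.CentresByPeriod

/-- The superattracting parameters of period at most `N`: the critical point `0` of `z ^ n + c` is
periodic of period at most `N`. -/
def centres (n N : ℕ) : Set ℂ :=
  {c | ∃ m : ℕ, 1 ≤ m ∧ m ≤ N ∧ (fun z : ℂ => z ^ n + c)^[m] 0 = 0}

/-- The iterated logarithm cut off at `1`: `ell n 0 = n` and `ell n (m + 1) = max 1 (log (ell n m))`. -/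
noncomputable def ell (n m : ℕ) : ℝ := (fun x : ℝ => max 1 (Real.log x))^[m] n

/-- The exact rate of density of the superattracting parameters of bounded period. -/
theorem result : ∃ C : ℝ, 0 < C ∧ ∀ n : ℕ, 2 ≤ n →
    -- the boundary of the Multibrot set lies in the region treated in the next item
    (∀ c ∈ frontier (N62a1eb23.multibrotSet n), 1 ≤ 4 * n * ‖c‖ ^ (n - 1)) ∧
    -- upper bound
    (∀ c ∈ N62a1eb23.multibrotSet n, 1 ≤ 4 * n * ‖c‖ ^ (n - 1) → ∀ m : ℕ, 1 ≤ m →
      ∃ c' ∈ centres n (m + 1), ‖c' - c‖ ≤ C * ell n m / n) ∧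
    -- lower bound
    (∀ m : ℕ, 1 ≤ m → Real.exp^[m] C ≤ n →
      ∃ c ∈ frontier (N62a1eb23.multibrotSet n), ∀ c' ∈ centres n (m + 1),
        ell n m / (C * n) ≤ ‖c' - c‖) := by
  have hA := Pool.Agent.Helper217.Width.one_le_A₀
  refine ⟨400000 * Pool.Agent.Helper217.Width.A₀, by positivity, ?_⟩
  intro n hn
  have hn0 : (0 : ℝ) < n := by
    have : 0 < n := by omega
    exact_mod_cast this
  refine ⟨fun c hc => Pool.Agent.Helper134.Eff.frontier_le hn hc, ?_, ?_⟩
  · intro c hc hc1 m hm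
    have hl : 1 ≤ ell n m := Pool.Agent.Helper134.Eff.one_le_ell hn m
    have hc2 : ‖c‖ ^ (n - 1) ≤ 4 := by
      have h1 := Pool.Agent.W746.LD.orbit_bound hn
        (Pool.Agent.W746.LD.mem_multibrot_orb hn hc) 0
      rw [Pool.Agent.W746.LD.orb_zero] at h1
      linarith
    by_contra hcon
    push Not at hcon
    have hno : Pool.Agent.Helper134.Eff.NoCen n c
        (400000 * Pool.Agent.Helper217.Width.A₀ * ell n m / n) (m + 1) := by
      intro t ht j hj1 hj2 h0
      have h1 := hcon t ⟨j, hj1, hj2, h0⟩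
      rw [Metric.mem_ball, dist_eq_norm] at ht
      linarith
    have h1 := Pool.Agent.Helper134.Eff.upper hn (by positivity) hm hno hc2 hc1
    rw [div_mul_cancel₀ _ hn0.ne'] at h1
    have h2 : 0 < Pool.Agent.Helper217.Width.A₀ * ell n m := by positivity
    have h3 : ell n m = Pool.Agent.Helper134.Eff.ell n m := rfl
    rw [← h3] at h1
    linarith
  · intro m hm hmn
    obtain ⟨k, rfl⟩ : ∃ k, m = k + 1 := ⟨m - 1, by omega⟩
    have h5 : Real.exp^[k + 1] 5000 ≤ n := by
      refine le_trans ?_ hmn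
      exact (Real.exp_monotone.iterate (k + 1)) (by linarith)
    obtain ⟨c, hc, h⟩ := Pool.Agent.Helper134.Eff.lower hn h5
    refine ⟨c, hc, ?_⟩
    rintro c' ⟨j, hj1, hj2, h0⟩
    have h1 := h c' j hj1 (by omega) h0
    have h2 : ell n (k + 1) = Real.log^[k + 1] (n : ℝ) :=
      Pool.Agent.Helper134.Eff.ell_eq (by norm_num) h5 (k + 1) le_rfl
    rw [h2, div_le_iff₀ (by positivity)]
    refine h1.trans ?_
    have h3 : 0 ≤ n * ‖c' - c‖ := by positivity
    nlinarith

end Pool.Agent.Results.MP_af9036_an.CentresByPeriod
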